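import Pool.Agent.Helper52.GPM.S

namespace Pool.Agent.Helper81.GPM

open Relation Classical Pool.Agent.Helper18.GP Pool.Agent.Helper52.GPM

theorem mr_mono {N : ℕ} {m m' : Finset (Fin N × Fin N)} {F : Fin N → Fin N → Prop}
    (h : m ⊆ m') {x y : Fin N} (hxy : EqvGen (mr m F) x y) : EqvGen (mr m' F) x y := by
  refine EqvGen.mono ?_ _ _ hxy
  rintro u v (huv | huv)
  · exact Or.inl (h huv)
  · exact Or.inr huv

theorem mod_xBott (hU : xUse) (hC : xLoop ∧ xEx ∧ xSplit ∧ xBridge ∧ xExch) : xBott := by
  obtain ⟨_, _, hSp, hBr, hEx⟩ := hC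
  intro N V w F hw m hm a ha b hb
  by_contra hab
  have claim : ∀ K : Finset (Fin N × Fin N), K ⊆ m →
      ¬ EqvGen (mr (m \ K) F) a b → ∃ e ∈ K, ¬ EqvGen (mr (m.erase e) F) a b := by
    intro K
    induction K using Finset.induction_on with
    | empty =>
      intro _ h
      exfalso
      apply h
      rw [Finset.sdiff_empty]
      exact hm.1.2 a ha b hb
    | insert h K0 hh IH =>
      intro hK hn
      have hK0 : K0 ⊆ m := fun e he => hK (Finset.mem_insert_of_mem he)
      have hhm : h ∈ m := hK (Finset.mem_insert_self _ _)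
      have hset : m \ insert h K0 = (m \ K0).erase h := by
        ext e
        simp only [Finset.mem_sdiff, Finset.mem_insert, Finset.mem_erase]
        tauto
      rw [hset] at hn
      by_cases hc : EqvGen (mr (m \ K0) F) a b
      · obtain ⟨x, y⟩ := h
        refine ⟨(x, y), Finset.mem_insert_self _ _, ?_⟩
        intro hcon
        have hsub : (m \ K0).erase (x, y) ⊆ m.erase (x, y) := by
          intro e he
          rw [Finset.mem_erase, Finset.mem_sdiff] at he
          rw [Finset.mem_erase]
          exact ⟨he.1, he.2.1⟩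
        rcases hU N F (m \ K0) x y a b hc with h1 | ⟨h1, h2⟩ | ⟨h1, h2⟩
        · exact hn h1
        · have h1' := mr_mono hsub h1
          have h2' := mr_mono hsub h2
          exact hBr N V w F hw m hm x y hhm
            (((h1'.symm _ _).trans _ _ _ hcon).trans _ _ _ (h2'.symm _ _))
        · have h1' := mr_mono hsub h1
          have h2' := mr_mono hsub h2
          exact hBr N V w F hw m hm x y hhm
            ((h2'.trans _ _ _ (hcon.symm _ _)).trans _ _ _ h1')
      · obtain ⟨e, he, hne⟩ := IH hK0 hc
        exact ⟨e, Finset.mem_insert_of_mem he, hne⟩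
  obtain ⟨⟨x, y⟩, heH, hne⟩ := claim (m.filter fun e => w a b < w e.1 e.2)
    (Finset.filter_subset _ _) (by
      intro hcon
      apply hab
      refine EqvGen.mono ?_ _ _ hcon
      rintro u v (huv | huv)
      · left
        rw [Finset.mem_sdiff, Finset.mem_filter] at huv
        refine ⟨huv.1, ?_⟩
        by_contra hlt
        exact huv.2 ⟨huv.1, not_le.1 hlt⟩
      · exact Or.inr huv)
  rw [Finset.mem_filter] at heH
  obtain ⟨hem, hlt⟩ := heH
  rcases hSp N V F m hm.1 x y hem a ha with h1 | h1
  · rcases hSp N V F m hm.1 x y hem b hb with h2 | h2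
    · exact hne (h1.trans _ _ _ (h2.symm _ _))
    · exact absurd (hEx N V w F hw m hm x y hem a ha b hb h1 h2) (not_le.2 hlt)
  · rcases hSp N V F m hm.1 x y hem b hb with h2 | h2
    · have h3 := hEx N V w F hw m hm x y hem b hb a ha h2 h1
      rw [hw.sy b hb a ha] at h3
      exact absurd h3 (not_le.2 hlt)
    · exact hne (h1.trans _ _ _ (h2.symm _ _))

end Pool.Agent.Helper81.GPM
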